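import Pool.Agent.D0H44.FR.Stm

/-! Package AV of project FR: averages of `1 / φ(q)` over two classes. -/

set_option autoImplicit false

open Finset

namespace Pool.Agent.D0H12.FR

open Pool.Agent.D0H44.FR (w w1 w2 S_W S_AV)
open Pool.Agent.H398R2.BV (sum_card_div_div)

theorem av_count (n m v : ℕ) (hm : 0 < m) :
    |(((Ioc 0 n).filter (fun q => q ≡ v [MOD m])).card : ℝ) - (n : ℝ) / m| ≤ 1 := by
  have h1 := Nat.Ioc_filter_modEq_card 0 n hm v
  have hm0r : (0 : ℚ) < m := by exact_mod_cast hm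
  set n1 : ℤ := ⌊((n : ℚ) - v) / m⌋ with hn1
  set n2 : ℤ := ⌊(((0 : ℕ) : ℚ) - v) / m⌋ with hn2
  have hle : n2 ≤ n1 := by
    apply Int.floor_le_floor
    apply div_le_div_of_nonneg_right _ hm0r.le
    have : (0 : ℚ) ≤ n := Nat.cast_nonneg _
    push_cast
    linarith
  rw [max_eq_left (by linarith)] at h1
  have a1 : (n1 : ℚ) ≤ ((n : ℚ) - v) / m := Int.floor_le _
  have a2 : ((n : ℚ) - v) / m < n1 + 1 := Int.lt_floor_add_one _
  have b1 : (n2 : ℚ) ≤ (((0 : ℕ) : ℚ) - v) / m := Int.floor_le _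
  have b2 : (((0 : ℕ) : ℚ) - v) / m < n2 + 1 := Int.lt_floor_add_one _
  have e1 : ((n : ℚ) - v) / m = (((0 : ℕ) : ℚ) - v) / m + (n : ℚ) / m := by
    push_cast
    ring
  rw [e1] at a1 a2
  have c1 : (((((Ioc 0 n).filter (fun q => q ≡ v [MOD m])).card : ℤ)) : ℚ) = (n1 : ℚ) - n2 := by
    rw [h1]
    push_cast
    ring
  rw [Int.cast_natCast] at c1
  have key : |((((Ioc 0 n).filter (fun q => q ≡ v [MOD m])).card : ℚ)) - (n : ℚ) / m| ≤ 1 := by
    rw [abs_le, c1]
    constructor <;> linarith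
  have := (Rat.cast_le (K := ℝ)).2 key
  push_cast at this
  exact this

theorem av_abel (A g : ℕ → ℝ) (M : ℕ) :
    ∑ q ∈ Ioc 0 M, A q * g q = (∑ q ∈ Ioc 0 M, A q) * g M +
      ∑ n ∈ range M, (∑ q ∈ Ioc 0 n, A q) * (g n - g (n + 1)) := by
  induction M with
  | zero => simp
  | succ M ih =>
    rw [Finset.sum_Ioc_succ_top (Nat.zero_le M), Finset.sum_Ioc_succ_top (Nat.zero_le M), ih,
      sum_range_succ]
    ring

noncomputable def gg (Q n : ℕ) : ℝ := w ((n : ℝ) / Q) / n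

theorem gg_diff (hW : S_W) (Q n : ℕ) (hQ : 1 ≤ Q) (hn : Q ≤ n) :
    |gg Q n - gg Q (n + 1)| ≤ 13 / (Q : ℝ) ^ 2 := by
  obtain ⟨hd, -, -, h01, h1, -, -, -⟩ := hW
  have hQ0 : (0 : ℝ) < Q := by exact_mod_cast hQ
  have hn0 : (0 : ℝ) < n := by exact_mod_cast (by omega : 0 < n)
  have hQn : (Q : ℝ) ≤ n := by exact_mod_cast hn
  have hL := Convex.norm_image_sub_le_of_norm_hasDerivWithin_le (f := w) (f' := w1) (C := 12)
    (s := Set.univ) (x := ((n + 1 : ℕ) : ℝ) / Q) (y := (n : ℝ) / Q)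
    (fun x _ => (hd x).hasDerivWithinAt) (fun x _ => by rw [Real.norm_eq_abs]; exact h1 x)
    convex_univ (Set.mem_univ _) (Set.mem_univ _)
  rw [Real.norm_eq_abs, Real.norm_eq_abs] at hL
  have e1 : |(n : ℝ) / Q - ((n + 1 : ℕ) : ℝ) / Q| = 1 / Q := by
    have : (n : ℝ) / Q - ((n + 1 : ℕ) : ℝ) / Q = -(1 / Q) := by
      push_cast
      ring
    rw [this, abs_neg, abs_of_pos (by positivity)]
  rw [e1] at hL
  have e2 : gg Q n - gg Q (n + 1) =
      (w ((n : ℝ) / Q) - w (((n + 1 : ℕ) : ℝ) / Q)) / ((n : ℝ) + 1) +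
        w ((n : ℝ) / Q) * (1 / (n * ((n : ℝ) + 1))) := by
    unfold gg
    push_cast
    field_simp
    ring
  rw [e2]
  refine (abs_add_le _ _).trans ?_
  have h2 : |(w ((n : ℝ) / Q) - w (((n + 1 : ℕ) : ℝ) / Q)) / ((n : ℝ) + 1)| ≤ 12 / (Q : ℝ) ^ 2 := by
    rw [abs_div, abs_of_pos (by positivity : (0 : ℝ) < (n : ℝ) + 1)]
    calc _ ≤ (12 * (1 / Q)) / ((n : ℝ) + 1) := by gcongr
      _ ≤ (12 * (1 / Q)) / (Q : ℝ) := by
          gcongr
          linarith
      _ = _ := by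
          field_simp
  have h3 : |w ((n : ℝ) / Q) * (1 / (n * ((n : ℝ) + 1)))| ≤ 1 / (Q : ℝ) ^ 2 := by
    rw [abs_mul, abs_of_nonneg (h01 _).1, abs_of_pos (by positivity)]
    calc _ ≤ 1 * (1 / (n * ((n : ℝ) + 1))) := by
          gcongr
          exact (h01 _).2
      _ ≤ 1 * (1 / (Q : ℝ) ^ 2) := by
          gcongr
          nlinarith
      _ = _ := one_mul _
  calc _ ≤ 12 / (Q : ℝ) ^ 2 + 1 / (Q : ℝ) ^ 2 := add_le_add h2 h3
    _ = _ := by ring

theorem gg_zero (hW : S_W) (Q n : ℕ) (hQ : 1 ≤ Q) (hn : n ≤ Q ∨ 2 * Q ≤ n) : gg Q n = 0 := by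
  obtain ⟨-, -, -, -, -, -, h0, -⟩ := hW
  have hQ0 : (0 : ℝ) < Q := by exact_mod_cast hQ
  unfold gg
  rw [(h0 ((n : ℝ) / Q) ?_).1, zero_div]
  rcases hn with h | h
  · left
    rw [div_le_one hQ0]
    exact_mod_cast h
  · right
    rw [le_div_iff₀ hQ0]
    exact_mod_cast h

theorem gg_var (hW : S_W) (Q : ℕ) (hQ : 1 ≤ Q) :
    ∑ n ∈ range (2 * Q), |gg Q n - gg Q (n + 1)| ≤ 13 / (Q : ℝ) := by
  have hQ0 : (0 : ℝ) < Q := by exact_mod_cast hQ
  rw [← Finset.sum_range_add_sum_Ico (fun n => |gg Q n - gg Q (n + 1)|) (by omega : Q ≤ 2 * Q)]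
  have h1 : ∑ n ∈ range Q, |gg Q n - gg Q (n + 1)| = 0 := by
    apply sum_eq_zero
    intro n hn
    rw [mem_range] at hn
    rw [gg_zero hW Q n hQ (by omega), gg_zero hW Q (n + 1) hQ (by omega)]
    simp
  rw [h1, zero_add]
  calc ∑ n ∈ Ico Q (2 * Q), |gg Q n - gg Q (n + 1)| ≤ ∑ _n ∈ Ico Q (2 * Q), 13 / (Q : ℝ) ^ 2 := by
        apply sum_le_sum
        intro n hn
        rw [mem_Ico] at hn
        exact gg_diff hW Q n hQ hn.1
    _ = _ := by
        rw [sum_const, Nat.card_Ico, nsmul_eq_mul]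
        have : 2 * Q - Q = Q := by omega
        rw [this]
        field_simp

theorem av_class (N r κ a : ℕ) (hr : r.Prime) (hk : ¬ r ∣ κ)
    (hrN : ¬ r ∣ N) :
    ∃ v : ℕ, ∀ q : ℕ, (N ∣ q ∧ r ∣ κ * q + a) ↔ q ≡ v [MOD (N * r)] := by
  have : Fact r.Prime := ⟨hr⟩
  have hκ : (κ : ZMod r) ≠ 0 := by
    intro h
    rw [ZMod.natCast_eq_zero_iff] at h
    exact hk h
  have hco : N.Coprime r := ((Nat.Prime.coprime_iff_not_dvd hr).2 hrN).symm
  obtain ⟨v, hv1, hv2⟩ := Nat.chineseRemainder hco 0 (((-(a : ZMod r)) / κ).val)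
  refine ⟨v, fun q => ?_⟩
  rw [← Nat.modEq_and_modEq_iff_modEq_mul hco]
  apply and_congr
  · rw [← Nat.modEq_zero_iff_dvd]
    exact ⟨fun h => h.trans hv1.symm, fun h => h.trans hv1⟩
  · have h1 : (q ≡ v [MOD r]) ↔ q ≡ ((-(a : ZMod r)) / κ).val [MOD r] :=
      ⟨fun h => h.trans hv2, fun h => h.trans hv2.symm⟩
    rw [h1, ← ZMod.natCast_eq_zero_iff, ← ZMod.natCast_eq_natCast_iff]
    rw [ZMod.natCast_val, ZMod.cast_id', id]
    push_cast
    rw [eq_div_iff hκ]
    constructor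
    · intro h
      linear_combination h
    · intro h
      linear_combination h

theorem av_S (N r κ κ' a n : ℕ) (hN : 1 ≤ N) (hr : r.Prime) (ha : ¬ r ∣ a) (hk : ¬ r ∣ κ)
    (hk' : ¬ r ∣ κ') :
    |∑ q ∈ Ioc 0 n, (if N ∣ q then (1 : ℝ) else 0) * ((if r ∣ κ * q + a then (1 : ℝ) else 0) -
      (if r ∣ κ' * q + a then (1 : ℝ) else 0))| ≤ 2 := by
  by_cases hrN : r ∣ N
  · rw [sum_eq_zero]
    · simp
    · intro q _
      by_cases hq : N ∣ q
      · have hrq : r ∣ q := hrN.trans hq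
        have h1 : ∀ k : ℕ, ¬ r ∣ k * q + a := by
          intro k h
          exact ha ((Nat.dvd_add_right (Dvd.dvd.mul_left hrq k)).1 h)
        rw [if_neg (h1 κ), if_neg (h1 κ')]
        simp
      · rw [if_neg hq, zero_mul]
  · obtain ⟨v, hv⟩ := av_class N r κ a hr hk hrN
    obtain ⟨v', hv'⟩ := av_class N r κ' a hr hk' hrN
    have hNr : 0 < N * r := Nat.mul_pos hN hr.pos
    have h1 := av_count n (N * r) v hNr
    have h2 := av_count n (N * r) v' hNr
    have e : ∀ (k u : ℕ), (∀ q : ℕ, (N ∣ q ∧ r ∣ k * q + a) ↔ q ≡ u [MOD (N * r)]) →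
        ∑ q ∈ Ioc 0 n, (if N ∣ q then (1 : ℝ) else 0) * (if r ∣ k * q + a then (1 : ℝ) else 0) =
        (((Ioc 0 n).filter (fun q => q ≡ u [MOD (N * r)])).card : ℝ) := by
      intro k u hu
      rw [card_filter]
      push_cast
      apply sum_congr rfl
      intro q _
      have := hu q
      by_cases h1 : N ∣ q <;> by_cases h2 : r ∣ k * q + a
      · rw [if_pos h1, if_pos h2, if_pos (this.1 ⟨h1, h2⟩), one_mul]
      · rw [if_pos h1, if_neg h2, if_neg (fun h => h2 (this.2 h).2), mul_zero]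
      · rw [if_neg h1, if_neg (fun h => h1 (this.2 h).1), zero_mul]
      · rw [if_neg h1, if_neg (fun h => h1 (this.2 h).1), zero_mul]
    have e3 : ∑ q ∈ Ioc 0 n, (if N ∣ q then (1 : ℝ) else 0) *
        ((if r ∣ κ * q + a then (1 : ℝ) else 0) - (if r ∣ κ' * q + a then (1 : ℝ) else 0)) =
        (((Ioc 0 n).filter (fun q => q ≡ v [MOD (N * r)])).card : ℝ) -
        (((Ioc 0 n).filter (fun q => q ≡ v' [MOD (N * r)])).card : ℝ) := by
      rw [← e κ v hv, ← e κ' v' hv', ← sum_sub_distrib]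
      apply sum_congr rfl
      intro q _
      rw [mul_sub]
    rw [e3]
    rw [abs_le] at h1 h2 ⊢
    constructor <;> linarith [h1.1, h1.2, h2.1, h2.2]

theorem av_inner (hW : S_W) (Q N r κ κ' a : ℕ) (hQ : 1 ≤ Q) (hN : 1 ≤ N) (hr : r.Prime)
    (ha : ¬ r ∣ a) (hk : ¬ r ∣ κ) (hk' : ¬ r ∣ κ') :
    |∑ q ∈ Ioc 0 (2 * Q), ((if N ∣ q then (1 : ℝ) else 0) *
      ((if r ∣ κ * q + a then (1 : ℝ) else 0) -
      (if r ∣ κ' * q + a then (1 : ℝ) else 0))) * gg Q q| ≤ 26 / Q := by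
  rw [av_abel, gg_zero hW Q (2 * Q) hQ (by omega), mul_zero, zero_add]
  refine (abs_sum_le_sum_abs _ _).trans ?_
  calc _ ≤ ∑ n ∈ range (2 * Q), 2 * |gg Q n - gg Q (n + 1)| := by
        apply sum_le_sum
        intro n _
        rw [abs_mul]
        apply mul_le_mul_of_nonneg_right _ (abs_nonneg _)
        exact av_S N r κ κ' a n hN hr ha hk hk'
    _ = 2 * ∑ n ∈ range (2 * Q), |gg Q n - gg Q (n + 1)| := by rw [mul_sum]
    _ ≤ 2 * (13 / Q) := by
        gcongr
        exact gg_var hW Q hQ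
    _ = _ := by ring

theorem tot_prod (t : Finset ℕ) (ht : ∀ p ∈ t, p.Prime) :
    (1 : ℝ) / (Nat.totient (∏ p ∈ t, p) : ℝ) = ∏ p ∈ t, 1 / ((p : ℝ) - 1) := by
  have h1 := Nat.totient_eq_mul_prod_factors (∏ p ∈ t, p)
  rw [Nat.primeFactors_prod ht] at h1
  have h2 : ((Nat.totient (∏ p ∈ t, p) : ℕ) : ℝ) = ∏ p ∈ t, ((p : ℝ) - 1) := by
    have h3 := congrArg (fun x : ℚ => (x : ℝ)) h1
    push_cast at h3
    rw [h3, ← prod_mul_distrib]
    apply prod_congr rfl
    intro p hp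
    have : (p : ℝ) ≠ 0 := by exact_mod_cast (ht p hp).ne_zero
    field_simp
  rw [h2, one_div, ← prod_inv_distrib]
  apply prod_congr rfl
  intro p _
  rw [one_div]

theorem tot_id (n : ℕ) (hn : n ≠ 0) :
    1 / (Nat.totient n : ℝ) =
      (∑ D ∈ n.divisors.filter Squarefree, 1 / (Nat.totient D : ℝ)) * (1 / (n : ℝ)) := by
  rw [Nat.sum_divisors_filter_squarefree hn, Nat.factors_eq]
  have e0 : (n.primeFactorsList : Multiset ℕ).toFinset = n.primeFactors := by
    rw [List.toFinset_coe]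
    rfl
  rw [e0]
  have h1 : ∑ i ∈ n.primeFactors.powerset, 1 / (Nat.totient i.val.prod : ℝ) =
      ∏ p ∈ n.primeFactors, (1 + 1 / ((p : ℝ) - 1)) := by
    rw [Finset.prod_one_add]
    apply sum_congr rfl
    intro t ht
    rw [mem_powerset] at ht
    rw [Finset.prod_val, ← tot_prod t (fun p hp => Nat.prime_of_mem_primeFactors (ht hp))]
    rfl
  rw [h1]
  have h2 := Nat.totient_eq_mul_prod_factors n
  have h3 := congrArg (fun x : ℚ => (x : ℝ)) h2
  push_cast at h3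
  rw [h3, one_div, mul_inv, ← prod_inv_distrib, one_div, mul_comm]
  congr 1
  apply prod_congr rfl
  intro p hp
  have hp2 := (Nat.prime_of_mem_primeFactors hp).two_le
  have hp0 : (p : ℝ) ≠ 0 := by positivity
  have hp1 : (p : ℝ) - 1 ≠ 0 := by
    have : (2 : ℝ) ≤ p := by exact_mod_cast hp2
    intro h
    linarith
  have e : (1 - (p : ℝ)⁻¹) = ((p : ℝ) - 1) / p := by field_simp
  rw [e, inv_div]
  field_simp
  ring

theorem cop_id (a q : ℕ) (ha : a ≠ 0) :
    (if q.Coprime a then (1 : ℝ) else 0) = ∑ t ∈ a.primeFactors.powerset,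
      (-1 : ℝ) ^ t.card * (if (∏ p ∈ t, p) ∣ q then (1 : ℝ) else 0) := by
  have h1 : (if q.Coprime a then (1 : ℝ) else 0) =
      ∏ p ∈ a.primeFactors, (1 + (if p ∣ q then (-1 : ℝ) else 0)) := by
    split_ifs with h
    · symm
      apply prod_eq_one
      intro p hp
      rw [if_neg, add_zero]
      intro hpq
      have := Nat.dvd_gcd hpq (Nat.dvd_of_mem_primeFactors hp)
      rw [h] at this
      exact (Nat.prime_of_mem_primeFactors hp).one_lt.ne' (Nat.dvd_one.1 this)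
    · obtain ⟨p, hp, hpq, hpa⟩ := Nat.Prime.not_coprime_iff_dvd.1 h
      symm
      apply prod_eq_zero (Nat.mem_primeFactors.2 ⟨hp, hpa, ha⟩)
      rw [if_pos hpq]
      norm_num
  rw [h1, Finset.prod_one_add]
  apply sum_congr rfl
  intro t ht
  rw [mem_powerset] at ht
  have hpr : ∀ p ∈ t, p.Prime := fun p hp => Nat.prime_of_mem_primeFactors (ht hp)
  by_cases h : (∏ p ∈ t, p) ∣ q
  · rw [if_pos h, mul_one]
    rw [prod_congr rfl (g := fun _ => (-1 : ℝ))]
    · rw [prod_const]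
    · intro p hp
      rw [if_pos ((dvd_prod_of_mem _ hp).trans h)]
  · rw [if_neg h, mul_zero]
    have : ∃ p ∈ t, ¬ p ∣ q := by
      by_contra hc
      push Not at hc
      exact h (Finset.prod_primes_dvd q (fun p hp => (hpr p hp).prime) hc)
    obtain ⟨p, hp, hpq⟩ := this
    apply prod_eq_zero hp
    rw [if_neg hpq]

theorem av_invtot (n : ℕ) (hn : 1 ≤ n) : 1 / (Nat.totient n : ℝ) ≤ (n.divisors.card : ℝ) / n := by
  have h1 : n ≤ n.divisors.card * Nat.totient n := by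
    calc n = ∑ d ∈ n.divisors, Nat.totient d := (Nat.sum_totient n).symm
      _ ≤ ∑ _d ∈ n.divisors, Nat.totient n := by
          apply sum_le_sum
          intro d hd
          exact Nat.le_of_dvd (Nat.totient_pos.mpr hn)
            (Nat.totient_dvd_of_dvd (Nat.dvd_of_mem_divisors hd))
      _ = _ := by rw [sum_const, smul_eq_mul]
  have h2 : (0 : ℝ) < Nat.totient n := by exact_mod_cast Nat.totient_pos.mpr hn
  have h3 : (0 : ℝ) < n := by exact_mod_cast hn
  rw [div_le_div_iff₀ h2 h3, one_mul]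
  exact_mod_cast h1

theorem av_suminv (D : ℕ) : ∑ e ∈ Icc 1 D, 1 / (Nat.totient e : ℝ) ≤ (1 + Real.log D) ^ 2 := by
  refine le_trans (sum_le_sum fun e he => ?_) (sum_card_div_div D)
  rw [mem_Icc] at he
  exact av_invtot e he.1

theorem t_AV (hW : S_W) : S_AV := by
  intro Q a r κ κ' hQ ha hr hra hk hk'
  have hQ0 : (0 : ℝ) < Q := by exact_mod_cast hQ
  -- the difference of the indicators
  set H : ℕ → ℝ := fun q => (if r ∣ κ * q + a then (1 : ℝ) else 0) -
      (if r ∣ κ' * q + a then (1 : ℝ) else 0) with hH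
  have hmain : ∑ q ∈ (Ioc Q (2 * Q)).filter (fun q => q.Coprime a), w ((q : ℝ) / Q) /
      (Nat.totient q : ℝ) * H q =
      ∑ t ∈ a.primeFactors.powerset, ∑ D ∈ Icc 1 (2 * Q),
        (-1 : ℝ) ^ t.card * (if Squarefree D then 1 / (Nat.totient D : ℝ) else 0) *
          ∑ q ∈ Ioc 0 (2 * Q), ((if Nat.lcm (∏ p ∈ t, p) D ∣ q then (1 : ℝ) else 0) * H q) *
            gg Q q := by
    have s1 : ∑ q ∈ (Ioc Q (2 * Q)).filter (fun q => q.Coprime a), w ((q : ℝ) / Q) /
        (Nat.totient q : ℝ) * H q = ∑ q ∈ Ioc 0 (2 * Q),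
        (if q.Coprime a then (1 : ℝ) else 0) * ((∑ D ∈ q.divisors.filter Squarefree,
          1 / (Nat.totient D : ℝ)) * gg Q q) * H q := by
      rw [sum_filter]
      symm
      rw [← sum_subset (Finset.Ioc_subset_Ioc_left (Nat.zero_le Q))]
      · apply sum_congr rfl
        intro q hq
        rw [mem_Ioc] at hq
        have h1 := tot_id q (by omega)
        split_ifs with h
        · rw [div_eq_mul_one_div, h1]
          unfold gg
          ring
        · simp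
      · intro q _ hq2
        rename_i hq1
        rw [mem_Ioc] at hq1 hq2
        rw [gg_zero hW Q q hQ (by omega)]
        ring
    rw [s1]
    have s2 : ∀ q ∈ Ioc 0 (2 * Q), (if q.Coprime a then (1 : ℝ) else 0) *
        ((∑ D ∈ q.divisors.filter Squarefree, 1 / (Nat.totient D : ℝ)) * gg Q q) * H q =
        ∑ t ∈ a.primeFactors.powerset, ∑ D ∈ Icc 1 (2 * Q),
        (-1 : ℝ) ^ t.card * (if Squarefree D then 1 / (Nat.totient D : ℝ) else 0) *
          (((if Nat.lcm (∏ p ∈ t, p) D ∣ q then (1 : ℝ) else 0) * H q) * gg Q q) := by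
      intro q hq
      rw [mem_Ioc] at hq
      have e1 : ∑ D ∈ q.divisors.filter Squarefree, 1 / (Nat.totient D : ℝ) =
          ∑ D ∈ Icc 1 (2 * Q), (if Squarefree D then 1 / (Nat.totient D : ℝ) else 0) *
            (if D ∣ q then (1 : ℝ) else 0) := by
        have : q.divisors.filter Squarefree = (Icc 1 (2 * Q)).filter (fun D => Squarefree D ∧ D ∣ q) := by
          ext D
          simp only [mem_filter, Nat.mem_divisors, mem_Icc]
          constructor
          · rintro ⟨⟨h1, h2⟩, h3⟩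
            have := Nat.le_of_dvd (by omega) h1
            have := Nat.pos_of_dvd_of_pos h1 (by omega)
            exact ⟨⟨by omega, by omega⟩, h3, h1⟩
          · rintro ⟨h1, h2, h3⟩
            exact ⟨⟨h3, by omega⟩, h2⟩
        rw [this, sum_filter]
        apply sum_congr rfl
        intro D _
        by_cases h1 : Squarefree D <;> by_cases h2 : D ∣ q <;> simp [h1, h2]
      rw [cop_id a q (by omega), e1, sum_mul, sum_mul]
      apply sum_congr rfl
      intro t _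
      rw [sum_mul, mul_sum, sum_mul]
      apply sum_congr rfl
      intro D _
      have e2 : (if Nat.lcm (∏ p ∈ t, p) D ∣ q then (1 : ℝ) else 0) =
          (if (∏ p ∈ t, p) ∣ q then (1 : ℝ) else 0) * (if D ∣ q then (1 : ℝ) else 0) := by
        by_cases h1 : (∏ p ∈ t, p) ∣ q <;> by_cases h2 : D ∣ q
        · rw [if_pos (Nat.lcm_dvd h1 h2), if_pos h1, if_pos h2, one_mul]
        · rw [if_neg (fun h => h2 ((Nat.dvd_lcm_right _ _).trans h)), if_neg h2, mul_zero]
        · rw [if_neg (fun h => h1 ((Nat.dvd_lcm_left _ _).trans h)), if_neg h1, zero_mul]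
        · rw [if_neg (fun h => h1 ((Nat.dvd_lcm_left _ _).trans h)), if_neg h1, zero_mul]
      rw [e2]
      ring
    rw [sum_congr rfl s2, sum_comm]
    apply sum_congr rfl
    intro t _
    rw [sum_comm]
    apply sum_congr rfl
    intro D _
    rw [mul_sum]
  rw [hmain]
  refine (abs_sum_le_sum_abs _ _).trans ?_
  have hin : ∀ t ∈ a.primeFactors.powerset, ∀ D ∈ Icc 1 (2 * Q),
      |(-1 : ℝ) ^ t.card * (if Squarefree D then 1 / (Nat.totient D : ℝ) else 0) *
          ∑ q ∈ Ioc 0 (2 * Q), ((if Nat.lcm (∏ p ∈ t, p) D ∣ q then (1 : ℝ) else 0) * H q) *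
            gg Q q| ≤ 1 / (Nat.totient D : ℝ) * (26 / Q) := by
    intro t ht D hD
    rw [mem_powerset] at ht
    rw [mem_Icc] at hD
    have hφ : (0 : ℝ) ≤ 1 / (Nat.totient D : ℝ) := by positivity
    have hN : 1 ≤ Nat.lcm (∏ p ∈ t, p) D := by
      apply Nat.pos_of_ne_zero
      apply Nat.lcm_ne_zero
      · rw [prod_ne_zero_iff]
        exact fun p hp => (Nat.prime_of_mem_primeFactors (ht hp)).ne_zero
      · omega
    rw [abs_mul, abs_mul, abs_pow, abs_neg, abs_one, one_pow, one_mul]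
    apply mul_le_mul _ (av_inner hW Q _ r κ κ' a hQ hN hr hra hk hk') (abs_nonneg _) hφ
    split_ifs
    · rw [abs_of_nonneg hφ]
    · rw [abs_zero]
      exact hφ
  calc _ ≤ ∑ t ∈ a.primeFactors.powerset, ∑ D ∈ Icc 1 (2 * Q),
        1 / (Nat.totient D : ℝ) * (26 / (Q : ℝ)) := by
        apply sum_le_sum
        intro t ht
        refine (abs_sum_le_sum_abs _ _).trans ?_
        apply sum_le_sum
        intro D hD
        exact hin t ht D hD
    _ = 2 ^ a.primeFactors.card * ((∑ D ∈ Icc 1 (2 * Q), 1 / (Nat.totient D : ℝ)) *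
          (26 / (Q : ℝ))) := by
        rw [sum_const, card_powerset, nsmul_eq_mul, ← sum_mul]
        push_cast
        ring
    _ ≤ 2 ^ a.primeFactors.card * ((1 + Real.log ((2 * Q : ℕ) : ℝ)) ^ 2 * (26 / (Q : ℝ))) := by
        gcongr
        exact av_suminv (2 * Q)
    _ ≤ _ := by
        rw [mul_div_assoc]
        gcongr
        have : 0 ≤ (1 + Real.log ((2 * Q : ℕ) : ℝ)) ^ 2 / (Q : ℝ) := by positivity
        calc (1 + Real.log ((2 * Q : ℕ) : ℝ)) ^ 2 * (26 / (Q : ℝ)) =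
            26 * ((1 + Real.log ((2 * Q : ℕ) : ℝ)) ^ 2 / (Q : ℝ)) := by ring
          _ ≤ 60 * ((1 + Real.log ((2 * Q : ℕ) : ℝ)) ^ 2 / (Q : ℝ)) := by linarith
          _ = _ := by ring

end Pool.Agent.D0H12.FR
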