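import Pool.Agent.D0H44.FR.Stm

/-! Package NF of project FR: the second moment of the test function. -/

set_option autoImplicit false

open Finset

namespace Pool.Agent.D0H12.FR

theorem count_mod (Q m v : ℕ) (hm : 0 < m) :
    |(((Ioc Q (2 * Q)).filter (fun q => q ≡ v [MOD m])).card : ℝ) - (Q : ℝ) / m| ≤ 1 := by
  have h1 := Nat.Ioc_filter_modEq_card Q (2 * Q) hm v
  have hm0r : (0 : ℚ) < m := by exact_mod_cast hm
  set n1 : ℤ := ⌊(((2 * Q : ℕ) : ℚ) - v) / m⌋ with hn1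
  set n2 : ℤ := ⌊(((Q : ℕ) : ℚ) - v) / m⌋ with hn2
  have hle : n2 ≤ n1 := by
    apply Int.floor_le_floor
    apply div_le_div_of_nonneg_right _ hm0r.le
    have : (0 : ℚ) ≤ Q := Nat.cast_nonneg _
    push_cast
    linarith
  rw [max_eq_left (by linarith)] at h1
  have a1 : (n1 : ℚ) ≤ (((2 * Q : ℕ) : ℚ) - v) / m := Int.floor_le _
  have a2 : (((2 * Q : ℕ) : ℚ) - v) / m < n1 + 1 := Int.lt_floor_add_one _
  have b1 : (n2 : ℚ) ≤ (((Q : ℕ) : ℚ) - v) / m := Int.floor_le _
  have b2 : (((Q : ℕ) : ℚ) - v) / m < n2 + 1 := Int.lt_floor_add_one _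
  have e1 : (((2 * Q : ℕ) : ℚ) - v) / m = (((Q : ℕ) : ℚ) - v) / m + (Q : ℚ) / m := by
    push_cast
    ring
  rw [e1] at a1 a2
  have c1 : (((((Ioc Q (2 * Q)).filter (fun q => q ≡ v [MOD m])).card : ℤ)) : ℚ) = (n1 : ℚ) - n2 := by
    rw [h1]
    push_cast
    ring
  rw [Int.cast_natCast] at c1
  have key : |((((Ioc Q (2 * Q)).filter (fun q => q ≡ v [MOD m])).card : ℚ)) - (Q : ℚ) / m| ≤ 1 := by
    rw [abs_le, c1]
    constructor <;> linarith
  have := (Rat.cast_le (K := ℝ)).2 key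
  push_cast at this
  exact this

theorem exists_class (r κ a : ℕ) (hr : r.Prime) (h1 : 1 ≤ κ) (h2 : κ < r) :
    ∃ v : ℕ, ∀ q : ℕ, r ∣ κ * q + a ↔ q ≡ v [MOD r] := by
  have : Fact r.Prime := ⟨hr⟩
  have hκ : (κ : ZMod r) ≠ 0 := by
    intro h
    rw [ZMod.natCast_eq_zero_iff] at h
    exact absurd (Nat.le_of_dvd (by omega) h) (by omega)
  refine ⟨((-(a : ZMod r)) / κ).val, fun q => ?_⟩
  rw [← ZMod.natCast_eq_zero_iff, ← ZMod.natCast_eq_natCast_iff]
  rw [ZMod.natCast_val, ZMod.cast_id', id]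
  push_cast
  rw [eq_div_iff hκ]
  constructor
  · intro h
    linear_combination h
  · intro h
    linear_combination h

theorem excl (r κ κ' a q : ℕ) (hr : r.Prime) (h2 : κ < r) (h2' : κ' < r) (hne : κ ≠ κ')
    (ha : ¬ r ∣ a) (h : r ∣ κ * q + a) (h' : r ∣ κ' * q + a) : False := by
  have : Fact r.Prime := ⟨hr⟩
  rw [← ZMod.natCast_eq_zero_iff] at h h'
  push_cast at h h'
  have h3 : ((κ : ZMod r) - κ') * q = 0 := by linear_combination h - h'
  rcases mul_eq_zero.1 h3 with h4 | h4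
  · apply hne
    have h5 : (κ : ZMod r) = κ' := sub_eq_zero.1 h4
    rw [ZMod.natCast_eq_natCast_iff'] at h5
    rwa [Nat.mod_eq_of_lt h2, Nat.mod_eq_of_lt h2'] at h5
  · apply ha
    rw [← ZMod.natCast_eq_zero_iff]
    rw [h4] at h
    linear_combination h

/-- the indicator -/
noncomputable def I (a κ r q : ℕ) : ℝ := if r ∣ κ * q + a then 1 else 0

theorem I_nonneg (a κ r q : ℕ) : 0 ≤ I a κ r q := by
  unfold I; split_ifs <;> norm_num

theorem sum_I (Q a κ r : ℕ) (hr : r.Prime) (h1 : 1 ≤ κ) (h2 : κ < r) :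
    ∑ q ∈ Ioc Q (2 * Q), I a κ r q ≤ (Q : ℝ) / r + 1 := by
  obtain ⟨v, hv⟩ := exists_class r κ a hr h1 h2
  have e : ∑ q ∈ Ioc Q (2 * Q), I a κ r q = (((Ioc Q (2 * Q)).filter (fun q => q ≡ v [MOD r])).card : ℝ) := by
    unfold I
    rw [Finset.sum_boole]
    congr 2
    exact Finset.filter_congr fun q _ => hv q
  rw [e]
  have := (abs_le.1 (count_mod Q r v hr.pos)).2
  linarith

theorem sum_II (Q a κ r κ' r' : ℕ) (hr : r.Prime) (hr' : r'.Prime) (hne : r ≠ r') (h1 : 1 ≤ κ)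
    (h2 : κ < r) (h1' : 1 ≤ κ') (h2' : κ' < r') :
    |∑ q ∈ Ioc Q (2 * Q), I a κ r q * I a κ' r' q - (Q : ℝ) / ((r : ℝ) * r')| ≤ 1 := by
  obtain ⟨v, hv⟩ := exists_class r κ a hr h1 h2
  obtain ⟨v', hv'⟩ := exists_class r' κ' a hr' h1' h2'
  have hco : r.Coprime r' := (Nat.coprime_primes hr hr').2 hne
  obtain ⟨w, hw⟩ := Nat.chineseRemainder hco v v'
  have e : ∑ q ∈ Ioc Q (2 * Q), I a κ r q * I a κ' r' q =
      (((Ioc Q (2 * Q)).filter (fun q => q ≡ w [MOD (r * r')])).card : ℝ) := by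
    unfold I
    have e2 : ∀ q ∈ Ioc Q (2 * Q), (if r ∣ κ * q + a then (1 : ℝ) else 0) * (if r' ∣ κ' * q + a then (1 : ℝ) else 0) =
        if q ≡ w [MOD (r * r')] then 1 else 0 := by
      intro q _
      have h5 : q ≡ w [MOD (r * r')] ↔ (r ∣ κ * q + a) ∧ (r' ∣ κ' * q + a) := by
        rw [← Nat.modEq_and_modEq_iff_modEq_mul hco, hv, hv']
        constructor
        · rintro ⟨h6, h7⟩
          exact ⟨h6.trans hw.1, h7.trans hw.2⟩
        · rintro ⟨h6, h7⟩
          exact ⟨h6.trans hw.1.symm, h7.trans hw.2.symm⟩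
      by_cases h6 : r ∣ κ * q + a <;> by_cases h7 : r' ∣ κ' * q + a <;> simp [h5, h6, h7]
    rw [Finset.sum_congr rfl e2, Finset.sum_boole]
  rw [e]
  have := count_mod Q (r * r') w (Nat.mul_pos hr.pos hr'.pos)
  push_cast at this
  exact this

open Pool.Agent.D0H44.FR (FF)

theorem t_NF : Pool.Agent.D0H44.FR.S_NF := by
  intro Q a R G KK kp hQ hR hG hGa hK hinj hdis
  classical
  have hR0 : (0 : ℝ) < R := by exact_mod_cast hR
  set P : Finset (ℕ × ℕ) := KK ×ˢ G with hP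
  set T : ℕ × ℕ → ℕ → ℝ := fun p q => I a p.1 p.2 q - I a (kp p.1) p.2 q with hT
  have hFF : ∀ q, FF G KK kp a q = ∑ p ∈ P, T p q := by
    intro q
    rw [hP, Finset.sum_product]
    rfl
  have h1 : ∑ q ∈ Ioc Q (2 * Q), FF G KK kp a q ^ 2 =
      ∑ p ∈ P, ∑ p' ∈ P, ∑ q ∈ Ioc Q (2 * Q), T p q * T p' q := by
    have e1 : ∀ q ∈ Ioc Q (2 * Q), FF G KK kp a q ^ 2 = ∑ p ∈ P, ∑ p' ∈ P, T p q * T p' q := by
      intro q _
      rw [hFF, pow_two, Finset.sum_mul_sum]
    rw [Finset.sum_congr rfl e1, Finset.sum_comm]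
    refine Finset.sum_congr rfl fun p _ => ?_
    rw [Finset.sum_comm]
  have h2 : ∀ p ∈ P, ∀ p' ∈ P, ∑ q ∈ Ioc Q (2 * Q), T p q * T p' q ≤
      (if p = p' then 2 * ((Q : ℝ) / R + 1) else 0) + 4 := by
    rintro ⟨k, r⟩ hp ⟨k', r'⟩ hp'
    rw [hP, mem_product] at hp hp'
    obtain ⟨hk, hr⟩ := hp
    obtain ⟨hk', hr'⟩ := hp'
    simp only at hk hr hk' hr'
    obtain ⟨pr, pR, -⟩ := hG r hr
    obtain ⟨pr', pR', -⟩ := hG r' hr'
    obtain ⟨a1, a2, a3, a4⟩ := hK k hk
    obtain ⟨b1, b2, b3, b4⟩ := hK k' hk'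
    by_cases hrr : r = r'
    · subst hrr
      by_cases hkk : k = k'
      · subst hkk
        rw [if_pos rfl]
        have h3 : ∀ q ∈ Ioc Q (2 * Q), T (k, r) q * T (k, r) q ≤ I a k r q + I a (kp k) r q := by
          intro q _
          simp only [hT]
          unfold I
          split_ifs <;> norm_num
        have h4 := Finset.sum_le_sum h3
        rw [Finset.sum_add_distrib] at h4
        have h5 := sum_I Q a k r pr a1 (by omega)
        have h6 := sum_I Q a (kp k) r pr a3 (by omega)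
        have h7 : (Q : ℝ) / r ≤ (Q : ℝ) / R := by
          apply div_le_div_of_nonneg_left (Nat.cast_nonneg _) hR0
          exact_mod_cast pR.le
        linarith
      · rw [if_neg (by simp [hkk])]
        have h3 : ∀ q ∈ Ioc Q (2 * Q), T (k, r) q * T (k', r) q = 0 := by
          intro q _
          have key : ∀ κ κ', κ < r → κ' < r → κ ≠ κ' → I a κ r q * I a κ' r q = 0 := by
            intro κ κ' g1 g2 g3
            unfold I
            by_cases g4 : r ∣ κ * q + a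
            · by_cases g5 : r ∣ κ' * q + a
              · exact (excl r κ κ' a q pr g1 g2 g3 (hGa r hr) g4 g5).elim
              · rw [if_neg g5, mul_zero]
            · rw [if_neg g4, zero_mul]
          have m1 := key k k' (by omega) (by omega) hkk
          have m2 := key k (kp k') (by omega) (by omega) (hdis k hk k' hk')
          have m3 := key (kp k) k' (by omega) (by omega) (hdis k' hk' k hk).symm
          have m4 := key (kp k) (kp k') (by omega) (by omega) (fun h => hkk (hinj hk hk' h))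
          simp only [hT]
          linear_combination m1 - m2 - m3 + m4
        rw [Finset.sum_eq_zero h3]
        norm_num
    · rw [if_neg (by simp [hrr])]
      have e : ∑ q ∈ Ioc Q (2 * Q), T (k, r) q * T (k', r') q =
          ∑ q ∈ Ioc Q (2 * Q), I a k r q * I a k' r' q - ∑ q ∈ Ioc Q (2 * Q), I a k r q * I a (kp k') r' q -
          ∑ q ∈ Ioc Q (2 * Q), I a (kp k) r q * I a k' r' q + ∑ q ∈ Ioc Q (2 * Q), I a (kp k) r q * I a (kp k') r' q := by
        rw [← Finset.sum_sub_distrib, ← Finset.sum_sub_distrib, ← Finset.sum_add_distrib]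
        refine Finset.sum_congr rfl fun q _ => ?_
        simp only [hT]
        ring
      rw [e]
      have m1 := abs_le.1 (sum_II Q a k r k' r' pr pr' hrr a1 (by omega) b1 (by omega))
      have m2 := abs_le.1 (sum_II Q a k r (kp k') r' pr pr' hrr a1 (by omega) b3 (by omega))
      have m3 := abs_le.1 (sum_II Q a (kp k) r k' r' pr pr' hrr a3 (by omega) b1 (by omega))
      have m4 := abs_le.1 (sum_II Q a (kp k) r (kp k') r' pr pr' hrr a3 (by omega) b3 (by omega))
      linarith [m1.1, m1.2, m2.1, m2.2, m3.1, m3.2, m4.1, m4.2]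
  rw [h1]
  calc ∑ p ∈ P, ∑ p' ∈ P, ∑ q ∈ Ioc Q (2 * Q), T p q * T p' q
      ≤ ∑ p ∈ P, ∑ p' ∈ P, ((if p = p' then 2 * ((Q : ℝ) / R + 1) else 0) + 4) :=
        Finset.sum_le_sum fun p hp => Finset.sum_le_sum fun p' hp' => h2 p hp p' hp'
    _ = KK.card * G.card * (2 * ((Q : ℝ) / R + 1)) + 4 * ((KK.card : ℝ) * G.card) ^ 2 := by
        have e1 : ∀ p ∈ P, ∑ p' ∈ P, ((if p = p' then 2 * ((Q : ℝ) / R + 1) else 0) + 4) =
            2 * ((Q : ℝ) / R + 1) + 4 * (P.card : ℝ) := by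
          intro p hp
          rw [Finset.sum_add_distrib, Finset.sum_ite_eq, if_pos hp, Finset.sum_const, nsmul_eq_mul]
          ring
        rw [Finset.sum_congr rfl e1, Finset.sum_const, nsmul_eq_mul]
        have e2 : (P.card : ℝ) = (KK.card : ℝ) * G.card := by
          rw [hP, Finset.card_product]
          push_cast
          ring
        rw [e2]
        ring

end Pool.Agent.D0H12.FR
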